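import Pool.Agent.Lib.MP_2d08ba_nt.DilateLemmas

set_option autoImplicit false

namespace Pool.Agent.Results.MP_2d08ba_nt.Dilates

open Pool.Agent.Lib.MP_2d08ba_nt

/-- **Large dilates are never realizable.** For every integer polygon `P` with `n ≥ 4` vertices, all
sufficiently large dilates `k P` are not `m`-realizable, for any `m` with `2 ≤ m ≤ n - 2`. -/
theorem result (V : Finset (ℤ × ℤ)) (hcard : 4 ≤ V.card) (hV : ConvexPos (vertexSet V)) :
    ∃ k0 : ℤ, ∀ k : ℤ, k0 ≤ k → ∀ m : ℕ, 2 ≤ m → m + 2 ≤ V.card →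
      ¬ Realizable m (poly (dilate k V)) := by
  classical
  have hc3 : 3 ≤ (vertexSet V).card := by rw [card_vertexSet]; omega
  have hex : ∀ p : (ℤ × ℤ) × (ℤ × ℤ) × (ℤ × ℤ) × (ℤ × ℤ), ∃ k0 : ℤ, ∀ k : ℤ, k0 ≤ k → 0 < k →
      IsEdgeZ V p.2.2.1 p.1 → IsEdgeZ V p.1 p.2.1 → IsEdgeZ V p.2.1 p.2.2.2 →
      EdgeHasPoint (k • p.1) (k • p.2.1) (k • p.2.2.1) (k • p.2.2.2) := by
    rintro ⟨a, b, c, d⟩
    simp only
    by_cases h : IsEdgeZ V c a ∧ IsEdgeZ V a b ∧ IsEdgeZ V b d
    · obtain ⟨hca, hab, hbd⟩ := h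
      have h1 : 0 < detZ (a - c) (b - a) := by
        have h2 := det_pos_neighbours hc3 (edge_iff.mpr hab) (edge_iff.mpr hca)
        rw [det_toR'] at h2
        have h3 : 0 < detZ (b - a) (c - a) := by exact_mod_cast h2
        have : detZ (a - c) (b - a) = detZ (b - a) (c - a) := by
          unfold detZ; simp only [Prod.fst_sub, Prod.snd_sub]; ring
        rw [this]; exact h3
      have h2 : 0 < detZ (b - a) (d - b) := by
        have h2 := det_pos_neighbours hc3 (edge_iff.mpr hbd) (edge_iff.mpr hab)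
        rw [det_toR'] at h2
        have h3 : 0 < detZ (d - b) (a - b) := by exact_mod_cast h2
        have : detZ (b - a) (d - b) = detZ (d - b) (a - b) := by
          unfold detZ; simp only [Prod.fst_sub, Prod.snd_sub]; ring
        rw [this]; exact h3
      obtain ⟨k0, hk0⟩ := edge_point_dilate hab.2.2.1 h1 h2
      exact ⟨k0, fun k hk hkp _ _ _ => hk0 k hk hkp⟩
    · exact ⟨0, fun k _ _ h1 h2 h3 => absurd ⟨h1, h2, h3⟩ h⟩
  choose K hK using hex
  set S := V ×ˢ V ×ˢ V ×ˢ V with hS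
  refine ⟨∑ p ∈ S, |K p| + 1, ?_⟩
  intro k hk m hm hmn hreal
  have hsum : 0 ≤ ∑ p ∈ S, |K p| := Finset.sum_nonneg (fun _ _ => abs_nonneg _)
  have hkpos : 0 < k := by linarith
  have hKle : ∀ p ∈ S, K p ≤ k := by
    intro p hp
    have h1 : |K p| ≤ ∑ p ∈ S, |K p| := Finset.single_le_sum (f := fun p => |K p|)
      (fun _ _ => abs_nonneg _) hp
    linarith [le_abs_self (K p)]
  have hne : (dilate k V).Nonempty := by
    rw [← Finset.card_pos, card_dilate hkpos]; omega
  -- reduce to m = n - 2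
  have hreal2 : Realizable (m + (V.card - 2 - m)) (poly (dilate k V)) :=
    realizable_mono hm hne hreal
  have hm2 : m + (V.card - 2 - m) = V.card - 2 := by omega
  rw [hm2] at hreal2
  refine not_realizable_of_points (m := V.card - 2) (by omega) (by rw [card_dilate hkpos]; omega)
    (convexPos_dilate hkpos hV) ?_ hreal2
  intro a' b' c' d' hca' hab' hbd'
  obtain ⟨c, a, hca, rfl, rfl⟩ := edge_dilate hkpos hca'
  obtain ⟨a1, b, hab, h1, rfl⟩ := edge_dilate hkpos hab'
  have := smul_inj hkpos h1; subst this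
  obtain ⟨b1, d, hbd, h1, rfl⟩ := edge_dilate hkpos hbd'
  have := smul_inj hkpos h1; subst this
  have hmem : (a1, b1, c, d) ∈ S := by
    rw [hS]
    simp only [Finset.mem_product]
    exact ⟨hab.1, hab.2.1, hca.1, hbd.2.1⟩
  exact hK (a1, b1, c, d) k (hKle _ hmem) hkpos hca hab hbd

end Pool.Agent.Results.MP_2d08ba_nt.Dilates
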