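import Pool.Agent.Lib.MP_2d08ba_nt.Word.FinalH
import Pool.Agent.Lib.MP_2d08ba_nt.Word.Bas
import Pool.Agent.Lib.MP_2d08ba_nt.Word.Pt
import Pool.Agent.Lib.MP_2d08ba_nt.Word.Cor
import Pool.Agent.Lib.MP_2d08ba_nt.Word.Ccw
import Pool.Agent.Lib.MP_2d08ba_nt.Word.VisE
import Pool.Agent.Lib.MP_2d08ba_nt.Word.VisP
import Pool.Agent.Lib.MP_2d08ba_nt.Word.Til
import Pool.Agent.Lib.MP_2d08ba_nt.Word.Cert
import Pool.Agent.Lib.MP_2d08ba_nt.Word.HJex
import Pool.Agent.Lib.MP_2d08ba_nt.Word.HJpr
import Pool.Agent.Lib.MP_2d08ba_nt.Word.HJun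
import Pool.Agent.Lib.MP_2d08ba_nt.Word.Tn
import Pool.Agent.Lib.MP_2d08ba_nt.Word.Aff
import Pool.Agent.Lib.MP_2d08ba_nt.Word.ListD

set_option autoImplicit false

namespace Pool.Agent.Results.MP_2d08ba_nt.Word

open Pool.Agent.Lib.MP_2d08ba_nt Pool.Agent.Lib.MP_2d08ba_nt.Word

/-- **The integer polygons that are not `m`-realizable, for all `m ≥ 2` and all numbers of
vertices, in terms of the integer lengths of the edges and the continued fractions of the
angles; and the list of all integer polygons in these terms.**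

First part. Let `P` be the integer polygon with vertex set `V`, and number its vertices
counterclockwise, `v i`, `i` in `ZMod n`, `n` the number of vertices. The invariants of the numbered
polygon are the lattice lengths `l i` of the edges, the Hirzebruch-Jung continued fractions `B i`
(lists of integers at least `2`) of the angles between the edges `i` and `i + 1`, and the integers
`c i` which link the continued fractions at the two ends of the edge `i` (`Inv`). They exist, are
unique, and are the same for two polygons if and only if these differ by a map of `SL₂(ℤ)` and a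
translation.

Put `t i = l i - c i`. The positions are the `2 n` pairs `(i, s)` of an edge and one of its two sides;
the blocks (`IsBl`) are sets of consecutive positions, read off from the numbers `t i` and the lists
`B i`. The following are equivalent.

1. `P` is not `m`-realizable.
2. No `m + 1` positions meet all blocks.
3. For some `1 ≤ w ≤ 3` (`w ≤ 2` if the two positions of some edge form a block, `w = 1` if this
   holds for two adjacent edges) there are `w (m + 1) + 1` blocks such that every position lies in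
   at most `w` of them.

The blocks are exactly the sets of tilted edge half-planes containing a point of the first shell
of `P`. It depends only on the cyclic word of the letters (`max (-3) (min (t i) 2)`, `B i` empty or
not, all entries of `B i` equal to `2` or not), an alphabet of 18 letters, whether `P` is
`m`-realizable.

Second part (the list). Integers `l i`, `c i` and lists `B i`, `i` in `ZMod n`, `n ≥ 3`, are the
invariants of some integer `n`-gon if and only if all `l i ≥ 1`, all entries of the lists are at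
least `2`, the recursion which starts with `u 0 = (1, 0)`, `q 0 = (0, 1)` and uses the coefficients
`B 0, c 1, B 1, c 2, …` closes up (`u i` are the directions of the edges), the sum of the `l i • u i` is
`0`, and the sum of the numbers `3 - b` over all coefficients `b` (the `c i` and the entries of the
`B i`) is `12`. -/
theorem result :
    (∀ m : ℕ, 2 ≤ m → ∀ V : Finset (ℤ × ℤ), 3 ≤ V.card → ConvexPos (vertexSet V) →
    (∃ v : ZMod V.card → ℤ × ℤ, Ccw V v) ∧
    ∀ v : ZMod V.card → ℤ × ℤ, Ccw V v →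
      (∃! x : (ZMod V.card → ℤ) × (ZMod V.card → ℤ) × (ZMod V.card → List ℤ),
        Inv v x.1 x.2.1 x.2.2) ∧
      ∀ (l c : ZMod V.card → ℤ) (B : ZMod V.card → List ℤ), Inv v l c B →
        [¬ Realizable m (poly V),
         ∀ f : Fin (m + 1) → ZMod V.card × Bool,
           ∃ S, IsBl (fun i => l i - c i) B S ∧ ∀ k, f k ∉ S,
         ∃ w : ℕ, (1 ≤ w ∧ w ≤ 3 ∧
             ((∃ i, IsBl (fun i => l i - c i) B {p | p.1 = i}) → w ≤ 2) ∧
             ((∃ i, IsBl (fun i => l i - c i) B {p | p.1 = i} ∧
               IsBl (fun i => l i - c i) B {p | p.1 = i + 1}) → w ≤ 1)) ∧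
           ∃ F : Fin (w * (m + 1) + 1) → Set (ZMod V.card × Bool),
             (∀ k, IsBl (fun i => l i - c i) B (F k)) ∧ ∀ p, {k | p ∈ F k}.ncard ≤ w].TFAE ∧
        (∀ S, IsBl (fun i => l i - c i) B S ↔
          ∃ x ∈ shell V, {p | Tilt (v p.1) (v (p.1 + 1)) p.2 x} = S) ∧
        (∀ (V' : Finset (ℤ × ℤ)) (v' : ZMod V.card → ℤ × ℤ), Ccw V' v' →
          (Inv v' l c B ↔ ∃ a b d e : ℤ, a * e - b * d = 1 ∧ ∃ t : ℤ × ℤ, ∀ i,
            v' i = (a * (v i).1 + b * (v i).2 + t.1, d * (v i).1 + e * (v i).2 + t.2))) ∧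
        ∀ (V' : Finset (ℤ × ℤ)) (v' : ZMod V.card → ℤ × ℤ) (l' c' : ZMod V.card → ℤ)
          (B' : ZMod V.card → List ℤ), ConvexPos (vertexSet V') → Ccw V' v' → Inv v' l' c' B' →
          (∀ i, max (-3) (min (l i - c i) 2) = max (-3) (min (l' i - c' i) 2) ∧
            (B i = [] ↔ B' i = []) ∧ ((∀ b ∈ B i, b = 2) ↔ ∀ b ∈ B' i, b = 2)) →
          (Realizable m (poly V) ↔ Realizable m (poly V'))) ∧
    ∀ (n : ℕ) [NeZero n], 3 ≤ n → ∀ (l c : ZMod n → ℤ) (B : ZMod n → List ℤ),
      (∃ (V : Finset (ℤ × ℤ)) (v : ZMod n → ℤ × ℤ), V.card = n ∧ ConvexPos (vertexSet V) ∧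
        Ccw V v ∧ Inv v l c B) ↔
      (∀ i, 1 ≤ l i ∧ ∀ b ∈ B i, 2 ≤ b) ∧
      (∃ u q : ZMod n → ℤ × ℤ, u 0 = (1, 0) ∧ q 0 = (0, 1) ∧
        (∀ i, run (B i) (u i, q i) = (c (i + 1) • u (i + 1) - q (i + 1), u (i + 1))) ∧
        ∑ i, l i • u i = 0) ∧
      ∑ i, (3 - c i + ((B i).map fun b => 3 - b).sum) = 12 := by
  refine ⟨?_, fun n _ hn l c B => list_iff bas hjpr n hn l c B⟩
  intro m hm V h3 hV
  have : NeZero V.card := ⟨by omega⟩
  have hVP := visP bas
  have hTil := til bas hVP
  refine ⟨ccw V h3 hV, ?_⟩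
  intro v hv
  refine ⟨?_, ?_⟩
  · obtain ⟨l, c, B, h⟩ := exists_inv bas (hjex hjpr) hjpr h3 hv
    refine ⟨(l, c, B), h, ?_⟩
    rintro ⟨l', c', B'⟩ h'
    obtain ⟨e1, e2, e3⟩ := inv_unique bas (hjun hjpr) h3 hv h' h
    exact Prod.ext e1 (Prod.ext e2 e3)
  intro l c B h
  have hblk := block_iff bas hjpr (tnh bas) h3 hv h
  refine ⟨?_, ?_, ?_, ?_⟩
  · simp only [← hblk]
    tfae_have 1 ↔ 2 := word_pierce_not bas (pt bas) (cor bas) (visE bas) hVP hTil m hm h3 hV hv
    tfae_have 1 → 3 := by
      intro h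
      obtain ⟨w, hw1, hw2, hF⟩ :=
        (word_cert bas (pt bas) (cor bas) (visE bas) hVP hTil cert m hm h3 hV hv).mp h
      obtain ⟨a1, a2, a3⟩ := word_turns bas (pt bas) (cor bas) (visE bas) hVP hTil h3 hV hv w hw2
      exact ⟨w, ⟨hw1, a1, a2, a3⟩, hF⟩
    tfae_have 3 → 1 := by
      rintro ⟨w, -, F, hF, hsp⟩
      exact cert_not_realizable bas (pt bas) (cor bas) (visE bas) hVP hTil m hm h3 hV hv w F hF hsp
    tfae_finish
  · intro S
    rw [← hblk]
    constructor
    · exact shell_of_block bas (pt bas) (cor bas) hVP hTil h3 hV hv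
    · rintro ⟨x, hx, rfl⟩
      exact block_of_shell bas (pt bas) (cor bas) (visE bas) hTil h3 hV hv hx
  · intro V' v' hv'
    exact aff bas V.card V V' v v' h3 hv hv' l c B h
  · intro V' v' l' c' B' hV' hv' h' hl
    have f1 := inv_facts bas hjpr (tnh bas) h3 hv h
    have f2 := inv_facts bas hjpr (tnh bas) h3 hv' h'
    have hsame : ∀ i, SameLetter v v' i := by
      intro i
      refine ⟨?_, ?_, ?_⟩
      · unfold clip
        rw [(f1 i).1, (f2 i).1]
        exact (hl i).1
      · rw [(f1 i).2.1, (f2 i).2.1]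
        exact (hl i).2.1
      · rw [(f1 i).2.2, (f2 i).2.2]
        exact (hl i).2.2
    rw [word_pierce bas (pt bas) (cor bas) (visE bas) hVP hTil m hm h3 hV hv,
      word_pierce bas (pt bas) (cor bas) (visE bas) hVP hTil m hm h3 hV' hv']
    constructor
    · rintro ⟨f, hf⟩
      exact ⟨f, fun S hS => hf S (block_dep (fun i => (hsame i).symm) hS)⟩
    · rintro ⟨f, hf⟩
      exact ⟨f, fun S hS => hf S (block_dep hsame hS)⟩

end Pool.Agent.Results.MP_2d08ba_nt.Word
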